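import Pool.Agent.GBS.StmtsB

/-!
# GBS row SCB: sectional and scalar curvature bridges (helper80)
-/

noncomputable section

open scoped ContDiff Topology RealInnerProductSpace
open Set MeasureTheory Matrix

namespace Pool.Agent.GBS.H80

open Pool.Agent.RF Pool.Agent.MVS Pool.Agent.SecondKind Pool.Agent.MinVolSphere

variable {h : Coord 4} {y : Fin 4 → ℝ}

/-- `riemV` as a linear map of the first entry -/
def lin1 (h : Coord 4) (y b c d : Fin 4 → ℝ) : (Fin 4 → ℝ) →ₗ[ℝ] ℝ where
  toFun a := riemV h y a b c d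
  map_add' a a' := by
    simp only [riemV, Pi.add_apply, add_mul, Finset.sum_add_distrib]
  map_smul' t a := by
    simp only [riemV, Pi.smul_apply, smul_eq_mul, Finset.mul_sum, RingHom.id_apply]
    refine Finset.sum_congr rfl fun p _ => Finset.sum_congr rfl fun q _ =>
      Finset.sum_congr rfl fun r _ => Finset.sum_congr rfl fun s _ => ?_
    ring

/-- `riemV` as a linear map of the second entry -/
def lin2 (h : Coord 4) (y a c d : Fin 4 → ℝ) : (Fin 4 → ℝ) →ₗ[ℝ] ℝ where
  toFun b := riemV h y a b c d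
  map_add' b b' := by
    simp only [riemV, Pi.add_apply, mul_add, add_mul, Finset.sum_add_distrib]
  map_smul' t b := by
    simp only [riemV, Pi.smul_apply, smul_eq_mul, Finset.mul_sum, RingHom.id_apply]
    refine Finset.sum_congr rfl fun p _ => Finset.sum_congr rfl fun q _ =>
      Finset.sum_congr rfl fun r _ => Finset.sum_congr rfl fun s _ => ?_
    ring

/-- `riemV` as a linear map of the third entry -/
def lin3 (h : Coord 4) (y a b d : Fin 4 → ℝ) : (Fin 4 → ℝ) →ₗ[ℝ] ℝ where
  toFun c := riemV h y a b c d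
  map_add' c c' := by
    simp only [riemV, Pi.add_apply, mul_add, add_mul, Finset.sum_add_distrib]
  map_smul' t c := by
    simp only [riemV, Pi.smul_apply, smul_eq_mul, Finset.mul_sum, RingHom.id_apply]
    refine Finset.sum_congr rfl fun p _ => Finset.sum_congr rfl fun q _ =>
      Finset.sum_congr rfl fun r _ => Finset.sum_congr rfl fun s _ => ?_
    ring

/-- `riemV` as a linear map of the fourth entry -/
def lin4 (h : Coord 4) (y a b c : Fin 4 → ℝ) : (Fin 4 → ℝ) →ₗ[ℝ] ℝ where
  toFun d := riemV h y a b c d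
  map_add' d d' := by
    simp only [riemV, Pi.add_apply, mul_add, add_mul, Finset.sum_add_distrib]
  map_smul' t d := by
    simp only [riemV, Pi.smul_apply, smul_eq_mul, Finset.mul_sum, RingHom.id_apply]
    refine Finset.sum_congr rfl fun p _ => Finset.sum_congr rfl fun q _ =>
      Finset.sum_congr rfl fun r _ => Finset.sum_congr rfl fun s _ => ?_
    ring

theorem riemV_sum1 (e : Fin 4 → Fin 4 → ℝ) (u b c d : Fin 4 → ℝ) :
    riemV h y (∑ i, u i • e i) b c d = ∑ i, u i * riemV h y (e i) b c d := by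
  have h1 := map_sum (lin1 h y b c d) (fun i => u i • e i) Finset.univ
  simp only [map_smul, smul_eq_mul] at h1
  exact h1

theorem riemV_sum2 (e : Fin 4 → Fin 4 → ℝ) (u a c d : Fin 4 → ℝ) :
    riemV h y a (∑ i, u i • e i) c d = ∑ i, u i * riemV h y a (e i) c d := by
  have h1 := map_sum (lin2 h y a c d) (fun i => u i • e i) Finset.univ
  simp only [map_smul, smul_eq_mul] at h1
  exact h1

theorem riemV_sum3 (e : Fin 4 → Fin 4 → ℝ) (u a b d : Fin 4 → ℝ) :
    riemV h y a b (∑ i, u i • e i) d = ∑ i, u i * riemV h y a b (e i) d := by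
  have h1 := map_sum (lin3 h y a b d) (fun i => u i • e i) Finset.univ
  simp only [map_smul, smul_eq_mul] at h1
  exact h1

theorem riemV_sum4 (e : Fin 4 → Fin 4 → ℝ) (u a b c : Fin 4 → ℝ) :
    riemV h y a b c (∑ i, u i • e i) = ∑ i, u i * riemV h y a b c (e i) := by
  have h1 := map_sum (lin4 h y a b c) (fun i => u i • e i) Finset.univ
  simp only [map_smul, smul_eq_mul] at h1
  exact h1

theorem riemV_sec (e : Fin 4 → Fin 4 → ℝ) (u v : Fin 4 → ℝ) :
    riemV h y (∑ i, u i • e i) (∑ i, v i • e i) (∑ i, v i • e i) (∑ i, u i • e i) =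
      sec4 (fun a b c d => riemV h y (e a) (e b) (e c) (e d)) u v := by
  rw [riemV_sum1]
  unfold sec4
  refine Finset.sum_congr rfl fun a _ => ?_
  rw [riemV_sum2, Finset.mul_sum]
  refine Finset.sum_congr rfl fun b _ => ?_
  rw [riemV_sum3, Finset.mul_sum, Finset.mul_sum]
  refine Finset.sum_congr rfl fun c _ => ?_
  rw [riemV_sum4, Finset.mul_sum, Finset.mul_sum, Finset.mul_sum]
  refine Finset.sum_congr rfl fun d _ => ?_
  ring

/-- the metric in a frame -/
theorem met_sum {e : Fin 4 → Fin 4 → ℝ} (he : IsFrame h y e) (u v : Fin 4 → ℝ) :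
    ∑ p, ∑ q, (∑ i, u i • e i) p * (∑ i, v i • e i) q * h y p q = ∑ i, u i * v i := by
  have h1 : ∀ p q, (∑ i, u i • e i) p * (∑ i, v i • e i) q * h y p q =
      ∑ i, ∑ j, u i * v j * (e i p * e j q * h y p q) := by
    intro p q
    simp only [Finset.sum_apply, Pi.smul_apply, smul_eq_mul]
    rw [Finset.sum_mul_sum, Finset.sum_mul]
    refine Finset.sum_congr rfl fun i _ => ?_
    rw [Finset.sum_mul]
    refine Finset.sum_congr rfl fun j _ => ?_
    ring
  calc ∑ p, ∑ q, (∑ i, u i • e i) p * (∑ i, v i • e i) q * h y p q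
      = ∑ p, ∑ q, ∑ i, ∑ j, u i * v j * (e i p * e j q * h y p q) := by
        refine Finset.sum_congr rfl fun p _ => Finset.sum_congr rfl fun q _ => h1 p q
    _ = ∑ i, ∑ j, u i * v j * ∑ p, ∑ q, e i p * e j q * h y p q := by
        rw [Finset.sum_congr rfl fun p _ => Finset.sum_comm (s := Finset.univ)
          (t := Finset.univ) (f := fun q i => ∑ j, u i * v j * (e i p * e j q * h y p q))]
        rw [Finset.sum_comm]
        refine Finset.sum_congr rfl fun i _ => ?_
        rw [Finset.sum_congr rfl fun p _ => Finset.sum_comm (s := Finset.univ)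
          (t := Finset.univ) (f := fun q j => u i * v j * (e i p * e j q * h y p q))]
        rw [Finset.sum_comm]
        refine Finset.sum_congr rfl fun j _ => ?_
        rw [Finset.mul_sum]
        refine Finset.sum_congr rfl fun p _ => ?_
        rw [Finset.mul_sum]
    _ = ∑ i, u i * v i := by
        refine Finset.sum_congr rfl fun i _ => ?_
        rw [Finset.sum_congr rfl fun j _ => by rw [he i j]]
        simp

theorem area_sum {e : Fin 4 → Fin 4 → ℝ} (he : IsFrame h y e) (u v : Fin 4 → ℝ) :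
    area2 h y (∑ i, u i • e i) (∑ i, v i • e i) = ar4 u v := by
  unfold area2 ar4
  rw [met_sum he, met_sum he, met_sum he]
  simp only [pow_two]

/-- **SCB** -/
theorem scb (hbof : BofStmt) : ScbStmt := by
  intro g G hG
  refine ⟨?_, ?_, ?_⟩
  · intro hs x hx F hF u v
    obtain ⟨U, ψ, y, e, hψ, hy, -, he, hK⟩ := hbof g G hG x hx F hF
    have h1 := hs U ψ hψ y hy (∑ i, u i • e i) (∑ i, v i • e i)
    rw [riemV_sec, area_sum he] at h1
    have h2 : (fun a b c d => riemV (comp g ψ) y (e a) (e b) (e c) (e d)) = Kf G x F := by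
      funext a b c d
      exact hK a b c d
    rw [h2] at h1
    rw [one_mul]
    exact h1
  · intro k hs x hx F hF u v
    obtain ⟨U, ψ, y, e, hψ, hy, -, he, hK⟩ := hbof g G hG x hx F hF
    have h1 := hs U ψ hψ y hy (∑ i, u i • e i) (∑ i, v i • e i)
    rw [riemV_sec, area_sum he] at h1
    have h2 : (fun a b c d => riemV (comp g ψ) y (e a) (e b) (e c) (e d)) = Kf G x F := by
      funext a b c d
      exact hK a b c d
    rw [h2] at h1
    exact h1
  · intro c hs x hx F hF
    obtain ⟨U, ψ, y, e, hψ, hy, -, he, hK⟩ := hbof g G hG x hx F hF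
    have h1 := hs U ψ hψ y hy e he
    have h2 : 12 * sg (Kf G x F) =
        ∑ i, ∑ j, riemV (comp g ψ) y (e i) (e j) (e j) (e i) := by
      unfold sg
      rw [mul_div_cancel₀ _ (by norm_num : (12 : ℝ) ≠ 0)]
      refine Finset.sum_congr rfl fun i _ => Finset.sum_congr rfl fun j _ => (hK i j j i).symm
    rw [h2]
    exact h1

end Pool.Agent.GBS.H80
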